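import Pool.Agent.H4.Sig3

set_option autoImplicit false

namespace Pool.Agent.Results.MP_fae5c8_lc.Hard

open Pool.Agent.H11.PT Pool.Agent.H4.Sig

theorem result :
    NPHard fun y : ℕ × List (List Bool × Bool) => y.2.length ≤ y.1 ∧ Loadable y :=
  hard_load.npHard

end Pool.Agent.Results.MP_fae5c8_lc.Hard
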